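import Pool.Agent.H20.RZ.TY
import Pool.Agent.H96.RZ.SQ
import Pool.Agent.H96.RZ.QF
import Pool.Agent.H75.PRL.S1

/-!
# PRL, module TYP: a unit class of square norm and trivial type is trivial modulo `P`
-/

set_option autoImplicit false

namespace Pool.PRL

open Polynomial Matrix Pool.AVR Pool.AVS Pool.RZ

namespace TYP

variable {F : Type} [Field F]

/-- Norms and reduction. -/
theorem norm_red {k : Type} [Field k] (φ : F[X] →+* k) (f : F[X] × F[X] × F[X]) (p : F[X][X]) :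
    ∃ ν : F[X], Algebra.norm (RatFunc F) (AdjoinRoot.mk (cubK f) (lf p)) = rf ν ∧
      Algebra.norm k (AdjoinRoot.mk (cub (φ f.1) (φ f.2.1) (φ f.2.2)) (p.map φ)) = φ ν := by
  refine ⟨-(TY.grR f.1 f.2.1 f.2.2 p).det, ?_, ?_⟩
  · have h1 := NGH.det_gr0 (kf f).1 (kf f).2.1 (kf f).2.2 (lf p)
    have h2 : gr0 (kf f).1 (kf f).2.1 (kf f).2.2 (lf p) =
        (TY.grR f.1 f.2.1 f.2.2 p).map (algebraMap F[X] (RatFunc F)) :=
      TY.grR_map (algebraMap F[X] (RatFunc F)) f.1 f.2.1 f.2.2 p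
    rw [h2, ← RingHom.mapMatrix_apply, ← RingHom.map_det] at h1
    rw [rf, map_neg, h1, neg_neg]
    rfl
  · have h1 := NGH.det_gr0 (φ f.1) (φ f.2.1) (φ f.2.2) (p.map φ)
    have h2 : gr0 (φ f.1) (φ f.2.1) (φ f.2.2) (p.map φ) =
        (TY.grR f.1 f.2.1 f.2.2 p).map φ :=
      TY.grR_map φ f.1 f.2.1 f.2.2 p
    rw [h2, ← RingHom.mapMatrix_apply, ← RingHom.map_det] at h1
    rw [map_neg, ← neg_eq_iff_eq_neg, ← h1]

/-- Lifting divisibility modulo `P`. -/
theorem lift_red {k : Type} [Field k] (φ : F[X] →+* k) (P : F[X])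
    (hφ : ∀ x, φ x = 0 → P ∣ x) (p : F[X][X]) (h : p.map φ = 0) :
    ∃ r : F[X][X], p = C P * r := by
  apply (C_dvd_iff_dvd_coeff _ _).2
  intro i
  apply hφ
  have := congrArg (fun q => q.coeff i) h
  rw [coeff_map, coeff_zero] at this
  exact this

end TYP

open PU TYP in
theorem typ : TYPStmt := by
  intro F _ _ h2 P f hPm hP h hN hT
  obtain ⟨e, β, γ, s, p, hSpl, hs0, hU, hsq0⟩ := hT
  obtain ⟨hirr0, hf1, hf2, hf3, -, -, -⟩ := hSpl
  have hs : cubK f ∣ h * s ^ 2 - lf p := by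
    have h1 : vp P β γ ^ ((0, 0) : Ty).1.val * p = p := by
      have : ((0, 0) : Ty).1.val = 0 := rfl
      rw [this, pow_zero, one_mul]
    rwa [h1] at hs0
  have hsq : SqM P (p.eval e) := by
    have h1 := hsq0.1 rfl
    have h3 : p.eval e * (e ^ 2 + β * e + γ) ^ ((0, 0) : Ty).1.val = p.eval e := by
      have : ((0, 0) : Ty).1.val = 0 := rfl
      rw [this, pow_zero, mul_one]
    rwa [h3] at h1
  -- the residue field
  have : Fact (Irreducible P) := ⟨hP⟩
  set k := AdjoinRoot P with hk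
  set φ : F[X] →+* k := AdjoinRoot.mk P with hφ
  have hφs : Function.Surjective φ := AdjoinRoot.mk_surjective
  have hφ0 : ∀ x, φ x = 0 ↔ P ∣ x := fun x => AdjoinRoot.mk_eq_zero
  have hfin : Module.Finite F k := (AdjoinRoot.powerBasis' hPm).finite
  have : Finite k := Module.finite_of_finite F
  have hk2 : (2 : k) ≠ 0 := by
    intro h0
    apply h2
    apply (algebraMap F k).injective
    rw [map_ofNat, map_zero, h0]
  obtain ⟨p', r, q, hq⟩ := hU
  obtain ⟨ν, hν, hνc⟩ := norm_red φ f p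
  have ha : φ f.1 = φ β - φ e := by
    rw [← map_sub, ← sub_eq_zero, ← map_sub, hφ0]
    exact hf1
  have hb : φ f.2.1 = φ γ - φ e * φ β := by
    rw [← map_mul, ← map_sub, ← sub_eq_zero, ← map_sub, hφ0]
    exact hf2
  have hc : φ f.2.2 = -(φ e * φ γ) := by
    rw [eq_neg_iff_add_eq_zero, ← map_mul, ← map_add, hφ0]
    exact hf3
  have hirr : ∀ x : k, x ^ 2 + φ β * x + φ γ ≠ 0 := by
    intro x h0
    obtain ⟨y, rfl⟩ := hφs x
    rw [← map_pow, ← map_mul, ← map_add, ← map_add, hφ0] at h0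
    exact hirr0 y h0
  have hpe : (p.map φ).eval (φ e) = φ (p.eval e) := by
    rw [eval_map_apply]
  -- the reduction of `p` is a unit
  have hcubmap : (cubP f).map φ = cub (φ β - φ e) (φ γ - φ e * φ β) (-(φ e * φ γ)) := by
    rw [cubP, TY.cub_map, ← ha, ← hb, ← hc]
  have hφP : φ P = 0 := (hφ0 P).2 dvd_rfl
  have hqc : (p.map φ) * (p'.map φ) - 1 =
      cub (φ β - φ e) (φ γ - φ e * φ β) (-(φ e * φ γ)) * (q.map φ) := by
    have h3 := congrArg (Polynomial.map φ) hq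
    rw [Polynomial.map_mul, hcubmap, Polynomial.map_sub, Polynomial.map_sub, Polynomial.map_mul,
      Polynomial.map_mul, map_C, hφP, C_0, zero_mul, sub_zero, Polynomial.map_one] at h3
    exact h3
  have hpe0 : (p.map φ).eval (φ e) ≠ 0 := by
    intro h0
    have h3 := congrArg (Polynomial.eval (φ e)) hqc
    rw [eval_sub, eval_mul, h0, zero_mul, eval_one, eval_mul] at h3
    have h4 : (cub (φ β - φ e) (φ γ - φ e * φ β) (-(φ e * φ γ))).eval (φ e) = 0 := by
      simp [cub]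
      ring
    rw [h4, zero_mul, zero_sub] at h3
    exact one_ne_zero (neg_eq_zero.1 h3)
  have hNp : IsSquare ν := by
    apply TY.sq_rf
    rw [← hν]
    have h3 : AdjoinRoot.mk (cubK f) (lf p) = AdjoinRoot.mk (cubK f) h *
        AdjoinRoot.mk (cubK f) s ^ 2 := by
      rw [← map_pow, ← map_mul, eq_comm, ← sub_eq_zero, ← map_sub]
      exact AdjoinRoot.mk_eq_zero.2 hs
    rw [h3, map_mul, map_pow]
    exact hN.mul (IsSquare.sq _)
  have hsqe : IsSquare ((p.map φ).eval (φ e)) := by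
    obtain ⟨w, hw⟩ := hsq
    refine ⟨φ w, ?_⟩
    rw [hpe, ← pow_two, ← map_pow, ← sub_eq_zero, ← map_sub, hφ0]
    exact hw
  obtain ⟨w0, w0', hw⟩ := sq_thm qf_thm k hk2 (φ e) (φ β) (φ γ) hirr (p.map φ) hpe0 hsqe (by
    rw [ha, hb, hc] at hνc
    rw [hνc]
    exact hNp.map φ)
  obtain ⟨w, rfl⟩ := Polynomial.map_surjective φ hφs w0
  obtain ⟨w', rfl⟩ := Polynomial.map_surjective φ hφs w0'
  obtain ⟨R, hR⟩ := lift_red φ P (fun x => (hφ0 x).1) (p - w ^ 2 - cubP f * w') (by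
    rw [Polynomial.map_sub, Polynomial.map_sub, Polynomial.map_pow, Polynomial.map_mul, hcubmap,
      hw, sub_self])
  refine ⟨s * lf (w * p'), 2 * r + C P * r ^ 2 - p * p' ^ 2 * R + 2 * r * cubP f * q, ?_⟩
  have h5 : p * (w * p') ^ 2 = 1 + C P * (2 * r + C P * r ^ 2 - p * p' ^ 2 * R +
      2 * r * cubP f * q) + cubP f * (2 * q + cubP f * q ^ 2 - p * p' ^ 2 * w') := by
    linear_combination (-(p * p' ^ 2)) * hR + (p * p' + 1 + C P * r + cubP f * q) * hq
  have h6 : h * (s * lf (w * p')) ^ 2 -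
      lf (1 + C P * (2 * r + C P * r ^ 2 - p * p' ^ 2 * R + 2 * r * cubP f * q)) =
      (h * s ^ 2 - lf p) * lf (w * p') ^ 2 +
      lf (p * (w * p') ^ 2 - (1 + C P * (2 * r + C P * r ^ 2 -
        p * p' ^ 2 * R + 2 * r * cubP f * q))) := by
    generalize w * p' = W
    generalize 1 + C P * (2 * r + C P * r ^ 2 - p * p' ^ 2 * R + 2 * r * cubP f * q) = Z
    simp only [lf, Polynomial.map_sub, Polynomial.map_mul, Polynomial.map_pow]
    ring
  rw [h6]
  refine dvd_add (hs.mul_right _) ?_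
  rw [h5, add_sub_cancel_left, cubK_eq, lf, lf, Polynomial.map_mul]
  exact dvd_mul_right _ _

end Pool.PRL
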