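import Pool.Agent.H88.RZ.KY
import Pool.Agent.H75.PRL.S1
import Pool.Agent.H75.PRL.S2
import Pool.Agent.H75.PRL.S5

/-!
# PRL, module KYP: the integral matrix of a class with given types
-/

set_option autoImplicit false
set_option linter.all false

namespace Pool.PRL

open Polynomial Matrix Pool.AVR Pool.AVS Pool.AVS.KYS Pool.RZ Pool.RZ.KY

namespace KYP

section Local

variable {F : Type} [Field F] (hPOL : POLStmt) (P : F[X]) (hP : Irreducible P)

include hP in
theorem rfP_ne : (rf P : RatFunc F) ≠ 0 := by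
  intro h
  have := (map_eq_zero_iff (algebraMap F[X] (RatFunc F)) (RatFunc.algebraMap_injective F)).1 h
  exact hP.ne_zero this

/-- The multiples of `P ^ N` in the local ring. -/
noncomputable def JP (N : ℕ) : Ideal (subP hPOL P hP) where
  carrier := {x | x.1 / rf P ^ N ∈ IP P}
  add_mem' := by
    intro x y hx hy
    show (x.1 + y.1) / rf P ^ N ∈ IP P
    rw [add_div]
    exact (subP hPOL P hP).add_mem hx hy
  zero_mem' := by
    show (0 : RatFunc F) / rf P ^ N ∈ IP P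
    rw [zero_div]
    exact (subP hPOL P hP).zero_mem
  smul_mem' := by
    intro c x hx
    show (c.1 * x.1) / rf P ^ N ∈ IP P
    rw [mul_div_assoc]
    exact (subP hPOL P hP).mul_mem c.2 hx

/-- Polynomials in the local ring. -/
noncomputable def pol : F[X] →+* subP hPOL P hP :=
  (algebraMap F[X] (RatFunc F)).codRestrict (subP hPOL P hP)
    fun p => ((hPOL F).2.2.1 P p hP).1

theorem pol_coe (p : F[X]) : ((pol hPOL P hP p : subP hPOL P hP) : RatFunc F) = rf p := rfl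

/-- The quotient. -/
abbrev QP (N : ℕ) : Type := subP hPOL P hP ⧸ JP hPOL P hP N

/-- The projection. -/
noncomputable abbrev prj (N : ℕ) : subP hPOL P hP →+* QP hPOL P hP N :=
  Ideal.Quotient.mk (JP hPOL P hP N)

/-- The projection of the polynomials. -/
noncomputable abbrev psi (N : ℕ) : F[X] →+* QP hPOL P hP N :=
  (prj hPOL P hP N).comp (pol hPOL P hP)

theorem prj_zero (N : ℕ) (x : subP hPOL P hP) :
    prj hPOL P hP N x = 0 ↔ x.1 / rf P ^ N ∈ IP P :=
  Ideal.Quotient.eq_zero_iff_mem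

theorem psi_zero (N : ℕ) (p : F[X]) : psi hPOL P hP N p = 0 ↔ P ^ N ∣ p := by
  rw [RingHom.comp_apply, prj_zero]
  exact ((hPOL F).2.2.1 P p hP).2 N

theorem psi_surj (N : ℕ) (x : subP hPOL P hP) : ∃ p, psi hPOL P hP N p = prj hPOL P hP N x := by
  have hden : ¬ P ∣ x.1.denom := x.2
  have hco : IsCoprime x.1.denom (P ^ N) :=
    ((hP.coprime_iff_not_dvd.2 hden).symm).pow_right
  obtain ⟨u, v, huv⟩ := hco
  refine ⟨x.1.num * u, ?_⟩
  rw [RingHom.comp_apply, ← sub_eq_zero, ← map_sub, prj_zero]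
  have h1 : (rf P : RatFunc F) ^ N ≠ 0 := pow_ne_zero _ (rfP_ne P hP)
  have h2 : (rf x.1.num : RatFunc F) = x.1 * rf x.1.denom := by
    have h3 : (rf x.1.denom : RatFunc F) ≠ 0 := by
      intro h
      exact RatFunc.denom_ne_zero x.1
        ((map_eq_zero_iff (algebraMap F[X] (RatFunc F)) (RatFunc.algebraMap_injective F)).1 h)
    exact (div_eq_iff h3).1 (RatFunc.num_div_denom x.1)
  have h5 : (rf u : RatFunc F) * rf x.1.denom + rf v * rf P ^ N = 1 := by
    have := congrArg (algebraMap F[X] (RatFunc F)) huv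
    rw [map_add, map_mul, map_mul, map_pow, map_one] at this
    exact this
  have h6 : ((pol hPOL P hP (x.1.num * u) - x : subP hPOL P hP) : RatFunc F) =
      (-(x.1 * rf v)) * rf P ^ N := by
    have h7 : (rf (x.1.num * u) : RatFunc F) = rf x.1.num * rf u := map_mul _ _ _
    show (rf (x.1.num * u) : RatFunc F) - x.1 = _
    rw [h7, h2]
    linear_combination x.1 * h5
  rw [h6, mul_div_assoc, div_self h1, mul_one]
  exact (subP hPOL P hP).neg_mem ((subP hPOL P hP).mul_mem x.2 ((hPOL F).2.2.1 P v hP).1)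

theorem prj_le {N M : ℕ} (h : N ≤ M) (x : subP hPOL P hP) (hx : prj hPOL P hP M x = 0) :
    prj hPOL P hP N x = 0 := by
  rw [prj_zero] at hx ⊢
  have h1 : (rf P : RatFunc F) ≠ 0 := rfP_ne P hP
  have h2 : x.1 / rf P ^ N = x.1 / rf P ^ M * rf (P ^ (M - N)) := by
    have h4 : (rf (P ^ (M - N)) : RatFunc F) = rf P ^ (M - N) := map_pow _ _ _
    rw [h4]
    have h3 : (rf P : RatFunc F) ^ M = rf P ^ N * rf P ^ (M - N) := by
      rw [← pow_add, Nat.add_sub_cancel' h]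
    rw [h3]
    field_simp
  rw [h2]
  exact (subP hPOL P hP).mul_mem hx ((hPOL F).2.2.1 P _ hP).1

theorem one_prj : prj hPOL P hP 1 1 ≠ 0 := by
  intro h
  have h1 : psi hPOL P hP 1 1 = 0 := by
    rw [RingHom.comp_apply, map_one]
    exact h
  rw [psi_zero, pow_one] at h1
  exact hP.not_isUnit (isUnit_of_dvd_one h1)

theorem AA_map {R S : Type} [CommRing R] [CommRing S] (φ : R →+* S) : (AA R).map φ = AA S := by
  ext i j
  fin_cases i <;> fin_cases j <;> simp [AA]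

theorem lift_mat {M : Matrix (Fin 3) (Fin 3) (RatFunc F)} (hM : MI (IP P) M) :
    ∃ M' : Matrix (Fin 3) (Fin 3) (subP hPOL P hP), M'.map (subP hPOL P hP).subtype = M :=
  ⟨Matrix.of fun i j => ⟨M i j, hM i j⟩, by ext i j; rfl⟩

theorem map_inj {M N : Matrix (Fin 3) (Fin 3) (subP hPOL P hP)}
    (h : M.map (subP hPOL P hP).subtype = N.map (subP hPOL P hP).subtype) : M = N := by
  ext i j
  have := congrFun (congrFun h i) j
  exact this

theorem map_conj {R S : Type} [CommRing R] [CommRing S] (φ : R →+* S)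
    (κ G : Matrix (Fin 3) (Fin 3) R) : (κᵀ * G * κ).map φ = (κ.map φ)ᵀ * G.map φ * κ.map φ := by
  rw [Matrix.map_mul, Matrix.map_mul, Matrix.transpose_map]

/-- The data over the local ring. -/
theorem setup (g κ gP G B0 : Matrix (Fin 3) (Fin 3) (RatFunc F))
    (B : Matrix (Fin 3) (Fin 3) F[X]) (hκ : GI (IP P) κ) (hg : g = gP * κ)
    (hA : gᵀ * G * g = AA (RatFunc F)) (hB : B.map (algebraMap F[X] (RatFunc F)) = gᵀ * B0 * g)
    (hG : MI (IP P) (gPᵀ * G * gP)) (hB0 : MI (IP P) (gPᵀ * B0 * gP)) :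
    ∃ κ' κi Gs Bs : Matrix (Fin 3) (Fin 3) (subP hPOL P hP), κ' * κi = 1 ∧ κi * κ' = 1 ∧
      Gs.map (subP hPOL P hP).subtype = gPᵀ * G * gP ∧
      Bs.map (subP hPOL P hP).subtype = gPᵀ * B0 * gP ∧
      κ'ᵀ * Gs * κ' = AA (subP hPOL P hP) ∧ κ'ᵀ * Bs * κ' = B.map (pol hPOL P hP) := by
  obtain ⟨κ', κi, hmul, hm⟩ := inv_mem (subP hPOL P hP) hκ
  obtain ⟨Gs, hGs⟩ := lift_mat hPOL P hP hG
  obtain ⟨Bs, hBs⟩ := lift_mat hPOL P hP hB0
  have hc : ∀ H : Matrix (Fin 3) (Fin 3) (RatFunc F),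
      κᵀ * (gPᵀ * H * gP) * κ = gᵀ * H * g := by
    intro H
    rw [hg, Matrix.transpose_mul]
    simp only [Matrix.mul_assoc]
  refine ⟨κ', κi, Gs, Bs, hmul, mul_eq_one_comm.1 hmul, hGs, hBs, ?_, ?_⟩
  · apply map_inj hPOL P hP
    rw [map_conj, hm, hGs, hc, hA, AA_map]
  · apply map_inj hPOL P hP
    rw [map_conj, hm, hBs, hc, ← hB]
    ext i j
    rfl

variable {κ' κi Gs Bs : Matrix (Fin 3) (Fin 3) (subP hPOL P hP)} {B : Matrix (Fin 3) (Fin 3) F[X]}

theorem mulVec_coe {R S : Type} [CommRing R] [CommRing S] (φ : R →+* S)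
    (M : Matrix (Fin 3) (Fin 3) R) (v : Fin 3 → R) (i : Fin 3) :
    φ ((M *ᵥ v) i) = (M.map φ *ᵥ fun j => φ (v j)) i := by
  simp only [Matrix.mulVec, dotProduct, Matrix.map_apply, map_sum, map_mul]

/-- Reduction of a value of a bilinear form. -/
theorem psi_bil (N : ℕ) (M : Matrix (Fin 3) (Fin 3) F[X]) (zp : Fin 3 → F[X])
    (z : Fin 3 → subP hPOL P hP) (hz : ∀ i, psi hPOL P hP N (zp i) = prj hPOL P hP N (z i)) :
    psi hPOL P hP N (bil M zp zp) = prj hPOL P hP N (bil (M.map (pol hPOL P hP)) z z) := by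
  rw [bil_map, bil_map]
  have e : (fun i => psi hPOL P hP N (zp i)) = fun i => prj hPOL P hP N (z i) := funext hz
  rw [e]
  congr 1

/-- Reduction of a vector. -/
theorem psi_vec (N : ℕ) (M : Matrix (Fin 3) (Fin 3) F[X]) (zp : Fin 3 → F[X])
    (z : Fin 3 → subP hPOL P hP) (hz : ∀ i, psi hPOL P hP N (zp i) = prj hPOL P hP N (z i))
    (i : Fin 3) : psi hPOL P hP N ((M *ᵥ zp) i) =
      prj hPOL P hP N ((M.map (pol hPOL P hP) *ᵥ z) i) := by
  rw [mulVec_coe, mulVec_coe]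
  have e : (fun i => psi hPOL P hP N (zp i)) = fun i => prj hPOL P hP N (z i) := funext hz
  rw [e]
  congr 1

/-- A vector over the local ring which is not divisible by `P`. -/
theorem nz_vec (hmul : κ' * κi = 1) (z : Fin 3 → subP hPOL P hP) (zp : Fin 3 → F[X])
    (hz : ∀ i, psi hPOL P hP 1 (zp i) = prj hPOL P hP 1 ((κi *ᵥ z) i))
    (h : ∃ i, prj hPOL P hP 1 (z i) ≠ 0) : ∃ i, ¬ P ∣ zp i := by
  by_contra hcon
  push Not at hcon
  obtain ⟨i, hi⟩ := h
  apply hi
  have h1 : z = κ' *ᵥ (κi *ᵥ z) := by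
    rw [Matrix.mulVec_mulVec, hmul, Matrix.one_mulVec]
  have h2 : ∀ j, prj hPOL P hP 1 ((κi *ᵥ z) j) = 0 := by
    intro j
    rw [← hz j, psi_zero, pow_one]
    exact hcon j
  rw [h1, mulVec_coe, show (fun j => prj hPOL P hP 1 ((κi *ᵥ z) j)) = 0 from funext h2,
    Matrix.mulVec_zero]
  rfl

/-- The case of the trivial type. -/
theorem trp (hmul : κ' * κi = 1) (hA : κ'ᵀ * Gs * κ' = AA (subP hPOL P hP))
    (hB : κ'ᵀ * Bs * κ' = B.map (pol hPOL P hP)) (h0 : prj hPOL P hP 1 (Gs 0 0) = 0)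
    (h1 : prj hPOL P hP 1 (Bs 0 0) = 0) : TrP P B := by
  set z : Fin 3 → subP hPOL P hP := κi *ᵥ ![1, 0, 0] with hz
  have hκz : κ' *ᵥ z = ![1, 0, 0] := by
    rw [hz, Matrix.mulVec_mulVec, hmul, Matrix.one_mulVec]
  choose zp hzp using fun i => psi_surj hPOL P hP 1 (z i)
  refine ⟨zp, ?_, ?_, ?_⟩
  · refine nz_vec hPOL P hP hmul ![1, 0, 0] zp hzp ⟨0, ?_⟩
    exact one_prj hPOL P hP
  · have h2 : psi hPOL P hP 1 (bil (AA F[X]) zp zp) = 0 := by
      rw [psi_bil hPOL P hP 1 _ zp z hzp, AA_map, ← hA, bil_conj, hκz, bil_e0, h0]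
    rwa [psi_zero, pow_one] at h2
  · have h2 : psi hPOL P hP 1 (bil B zp zp) = 0 := by
      rw [psi_bil hPOL P hP 1 _ zp z hzp, ← hB, bil_conj, hκz, bil_e0, h1]
    rwa [psi_zero, pow_one] at h2

/-- The case of the nontrivial unit class. -/
theorem ntr (hmul : κi * κ' = 1) (hA : κ'ᵀ * Gs * κ' = AA (subP hPOL P hP))
    (hB : κ'ᵀ * Bs * κ' = B.map (pol hPOL P hP))
    (h : ∀ z : Fin 3 → subP hPOL P hP, prj hPOL P hP 1 (bil Gs z z) = 0 →
      prj hPOL P hP 1 (bil Bs z z) = 0 → ∀ i, prj hPOL P hP 1 (z i) = 0) : ¬ TrP P B := by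
  rintro ⟨zp, ⟨i, hi⟩, h1, h2⟩
  apply hi
  set z : Fin 3 → subP hPOL P hP := κ' *ᵥ fun i => pol hPOL P hP (zp i) with hz
  have h3 : prj hPOL P hP 1 (bil Gs z z) = 0 := by
    rw [hz, ← bil_conj, hA, ← AA_map (pol hPOL P hP), ← bil_map]
    have : psi hPOL P hP 1 (bil (AA F[X]) zp zp) = 0 := by
      rw [psi_zero, pow_one]
      exact h1
    exact this
  have h4 : prj hPOL P hP 1 (bil Bs z z) = 0 := by
    rw [hz, ← bil_conj, hB, ← bil_map]
    have : psi hPOL P hP 1 (bil B zp zp) = 0 := by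
      rw [psi_zero, pow_one]
      exact h2
    exact this
  have h5 := h z h3 h4
  have h6 : (κi *ᵥ z) i = pol hPOL P hP (zp i) := by
    rw [hz, Matrix.mulVec_mulVec, hmul, Matrix.one_mulVec]
  have h7 : psi hPOL P hP 1 (zp i) = 0 := by
    rw [RingHom.comp_apply, ← h6, mulVec_coe,
      show (fun j => prj hPOL P hP 1 (z j)) = 0 from funext h5, Matrix.mulVec_zero]
    rfl
  rwa [psi_zero, pow_one] at h7

/-- The case of the type `(1, 0)`. -/
theorem bsh (hmul : κ' * κi = 1) (hA : κ'ᵀ * Gs * κ' = AA (subP hPOL P hP))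
    (hB : κ'ᵀ * Bs * κ' = B.map (pol hPOL P hP)) (zh : Fin 3 → subP hPOL P hP)
    (μ w : subP hPOL P hP) (h1 : ∃ i, prj hPOL P hP 1 (zh i) ≠ 0) (h2 : prj hPOL P hP 1 w ≠ 0)
    (h3 : prj hPOL P hP 2 (bil Gs zh zh) = 0)
    (h4 : ∀ i, prj hPOL P hP 2 ((Bs *ᵥ zh) i - pol hPOL P hP P * μ * (Gs *ᵥ zh) i) = 0)
    (h5 : ∀ i j, prj hPOL P hP 1 (Bs i j - w ^ 2 * ((Gs *ᵥ zh) i * (Gs *ᵥ zh) j)) = 0) :
    BSh P B := by
  set z : Fin 3 → subP hPOL P hP := κi *ᵥ zh with hz
  have hκz : κ' *ᵥ z = zh := by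
    rw [hz, Matrix.mulVec_mulVec, hmul, Matrix.one_mulVec]
  choose zp hzp using fun i => psi_surj hPOL P hP 2 (z i)
  have hzp1 : ∀ i, psi hPOL P hP 1 (zp i) = prj hPOL P hP 1 (z i) := by
    intro i
    have a1 := hzp i
    rw [RingHom.comp_apply, ← sub_eq_zero, ← map_sub] at a1 ⊢
    exact prj_le hPOL P hP (by norm_num) _ a1
  obtain ⟨μp, hμp⟩ := psi_surj hPOL P hP 2 μ
  obtain ⟨wp, hwp⟩ := psi_surj hPOL P hP 1 w
  have hAz : AA (subP hPOL P hP) *ᵥ z = κ'ᵀ *ᵥ (Gs *ᵥ zh) := by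
    rw [← hA, ← Matrix.mulVec_mulVec, hκz, ← Matrix.mulVec_mulVec]
  have hBz : B.map (pol hPOL P hP) *ᵥ z = κ'ᵀ *ᵥ (Bs *ᵥ zh) := by
    rw [← hB, ← Matrix.mulVec_mulVec, hκz, ← Matrix.mulVec_mulVec]
  refine ⟨zp, μp, wp, nz_vec hPOL P hP hmul zh zp hzp1 h1, ?_, ?_, ?_, ?_⟩
  · intro hd
    apply h2
    rw [← hwp, psi_zero, pow_one]
    exact hd
  · have a1 : psi hPOL P hP 2 (bil (AA F[X]) zp zp) = 0 := by
      rw [psi_bil hPOL P hP 2 _ zp z hzp, AA_map, ← hA, bil_conj, hκz, h3]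
    rwa [psi_zero] at a1
  · intro i
    have a1 : psi hPOL P hP 2 ((B *ᵥ zp) i - P * μp * (AA F[X] *ᵥ zp) i) = 0 := by
      rw [map_sub, map_mul, map_mul, hμp, psi_vec hPOL P hP 2 B zp z hzp,
        psi_vec hPOL P hP 2 _ zp z hzp, AA_map, hAz, hBz]
      have a2 : psi hPOL P hP 2 P = prj hPOL P hP 2 (pol hPOL P hP P) := rfl
      rw [a2, ← map_mul, ← map_mul, ← map_sub]
      have a3 : (κ'ᵀ *ᵥ (Bs *ᵥ zh)) i - pol hPOL P hP P * μ * (κ'ᵀ *ᵥ (Gs *ᵥ zh)) i =
          (κ'ᵀ *ᵥ fun j => (Bs *ᵥ zh) j - pol hPOL P hP P * μ * (Gs *ᵥ zh) j) i := by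
        generalize Bs *ᵥ zh = u
        generalize Gs *ᵥ zh = v
        simp only [Matrix.mulVec, dotProduct, Fin.sum_univ_three, Matrix.transpose_apply]
        ring
      rw [a3, mulVec_coe, show (fun j => prj hPOL P hP 2 ((Bs *ᵥ zh) j -
        pol hPOL P hP P * μ * (Gs *ᵥ zh) j)) = 0 from funext h4, Matrix.mulVec_zero]
      rfl
    rwa [psi_zero] at a1
  · intro i j
    have a1 : psi hPOL P hP 1 (B i j - wp ^ 2 * ((AA F[X] *ᵥ zp) i * (AA F[X] *ᵥ zp) j)) = 0 := by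
      rw [map_sub, map_mul, map_mul, map_pow, hwp, psi_vec hPOL P hP 1 _ zp z hzp1,
        psi_vec hPOL P hP 1 _ zp z hzp1, AA_map, hAz]
      have a2 : psi hPOL P hP 1 (B i j) = prj hPOL P hP 1 ((κ'ᵀ * Bs * κ') i j) := by
        rw [hB]
        rfl
      rw [a2, ← map_pow, ← map_mul, ← map_mul, ← map_sub]
      have a3 : (κ'ᵀ * Bs * κ') i j - w ^ 2 * ((κ'ᵀ *ᵥ (Gs *ᵥ zh)) i * (κ'ᵀ *ᵥ (Gs *ᵥ zh)) j) =
          (κ'ᵀ * (Matrix.of fun k l => Bs k l - w ^ 2 * ((Gs *ᵥ zh) k * (Gs *ᵥ zh) l)) *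
            κ') i j := by
        generalize Gs *ᵥ zh = v
        simp only [Matrix.mul_apply, Matrix.mulVec, dotProduct, Fin.sum_univ_three,
          Matrix.transpose_apply, Matrix.of_apply]
        ring
      rw [a3]
      have a4 : ∀ k l, prj hPOL P hP 1 ((Matrix.of fun k l => Bs k l -
          w ^ 2 * ((Gs *ᵥ zh) k * (Gs *ᵥ zh) l)) k l) = 0 := fun k l => h5 k l
      generalize (Matrix.of fun k l => Bs k l - w ^ 2 * ((Gs *ᵥ zh) k * (Gs *ᵥ zh) l)) = M at a4 ⊢
      simp only [Matrix.mul_apply, map_sum, map_mul, a4, mul_zero, zero_mul,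
        Finset.sum_const_zero]
    rwa [psi_zero, pow_one] at a1

end Local

end KYP

open KYP

theorem kyp (hUSE : USEStmt) (hTRE : TREStmt) (hINF : INFStmt) (hGLB : GLBStmt)
    (hPOL : POLStmt) (hNGH : NGHStmt) (hCHH : CHHStmt) (hBSH : BSHStmt) (hTYP : TYPStmt)
    (hLMI : LMIStmt) (hLBB : LBBStmt) (hSCD : SCDStmt) (hTWP : TWPStmt) : KYPStmt := by
  classical
  intro F _ _ h2 n T hEv f hf y hy h hcop hsq hUS hTy
  have hTmi : ∀ P ∈ T, P.Monic ∧ Irreducible P := fun P hP => ⟨(hEv P hP).1, (hEv P hP).2.1⟩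
  set O : Finset F[X] := odd T y with hO
  have hOT : O ⊆ T := by
    rw [hO]
    unfold odd
    exact Finset.filter_subset _ _
  have hOm : ∀ P, P ∈ O ↔ P ∈ T ∧ (y P).1 = 1 := by
    intro P
    rw [hO]
    unfold odd
    rw [Finset.mem_filter]
  set d : F[X] := pr O with hd
  obtain ⟨hdm, hde, hdn, hdsq, hdiv⟩ := (hTWP F h2 n T hEv).1 O hOT
  have hd0 : d ≠ 0 := hdm.ne_zero
  have hrd0 : (rf d : RatFunc F) ≠ 0 := by
    intro h0
    exact hd0 ((map_eq_zero_iff (algebraMap F[X] (RatFunc F))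
      (RatFunc.algebraMap_injective F)).1 h0)
  obtain ⟨hfam, hNR, hirr, hsep, hdisc, hdisc2, hdiscT, htw⟩ := (hTWP F h2 n T hEv).2 f hf
  obtain ⟨htwI, htwE, htwN, htwT, -⟩ := htw O hOT
  obtain ⟨hS1, hS2, -⟩ := hSCD F d f hd0
  obtain ⟨hSn, hSc, -, hSR⟩ := hS2 h
  set a := (kf f).1 with ha
  set b := (kf f).2.1 with hb
  set c := (kf f).2.2 with hc
  obtain ⟨hRep, hdet, -⟩ := hNGH (RatFunc F) a b c h
  have hcub : cub a b c = cubK f := rfl
  have hsq' := hsq
  obtain ⟨ε, hε⟩ := hsq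
  have hdetε : (gr0 a b c h).det = -ε ^ 2 := by
    rw [hdet, hcub, hε, sq]
  -- the norm is not zero
  have hε0 : ε ≠ 0 := by
    intro h0
    have hu : IsUnit (AdjoinRoot.mk (cubK f) h) := by
      obtain ⟨u, v, huv⟩ := hcop
      refine IsUnit.of_mul_eq_one (AdjoinRoot.mk (cubK f) u) ?_
      rw [← map_mul, mul_comm h u]
      have h3 : u * h = 1 - v * cubK f := by linear_combination huv
      rw [h3, map_sub, map_one, map_mul, AdjoinRoot.mk_self, mul_zero, sub_zero]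
    have h4 := hu.map (Algebra.norm (RatFunc F))
    rw [hε, h0, mul_zero] at h4
    exact not_isUnit_zero h4
  have hGs : (gr0 a b c h)ᵀ = gr0 a b c h := by
    ext i j
    simp only [Matrix.transpose_apply, gr0, Matrix.of_apply]
    rw [mul_comm (X ^ (j : ℕ)) (X ^ (i : ℕ))]
  have hBs1 : (gr1 a b c h)ᵀ = gr1 a b c h := by
    ext i j
    simp only [Matrix.transpose_apply, gr1, Matrix.of_apply]
    rw [mul_comm (X ^ (j : ℕ)) (X ^ (i : ℕ))]
  set B0 : Matrix (Fin 3) (Fin 3) (RatFunc F) := rf d • gr1 a b c h with hB0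
  have hBs : B0ᵀ = B0 := by
    rw [hB0, Matrix.transpose_smul, hBs1]
  have hdet0 : (gr0 a b c h).det ≠ 0 := by
    rw [hdetε]
    exact neg_ne_zero.2 (pow_ne_zero _ hε0)
  -- bad primes
  obtain ⟨S₀, hS₀, hbad⟩ := exists_bad
    ((List.finRange 3).flatMap (fun i => (List.finRange 3).flatMap fun j =>
      [gr0 a b c h i j, B0 i j]) ++
      [(gr0 a b c h).det, ((gr0 a b c h).det)⁻¹])
  set S : Finset F[X] := T ∪ S₀ with hSdef
  have hS : ∀ P ∈ S, P.Monic ∧ Irreducible P := by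
    intro P hP
    rw [hSdef, Finset.mem_union] at hP
    rcases hP with hP | hP
    · exact hTmi P hP
    · exact hS₀ P hP
  have hSS : ∀ P : F[X], P ∉ S → P ∉ S₀ := by
    intro P hP h
    exact hP (by rw [hSdef]; exact Finset.mem_union_right _ h)
  have hbad0 : ∀ P : F[X], P.Monic → Irreducible P → P ∉ S → MI (IP P) (gr0 a b c h) := by
    intro P h1 h3 h4 i j
    apply hbad P h1 h3 (hSS P h4)
    simp only [List.mem_append, List.mem_flatMap, List.mem_finRange, true_and]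
    left
    exact ⟨i, j, by simp⟩
  have hbad1 : ∀ P : F[X], P.Monic → Irreducible P → P ∉ S → MI (IP P) B0 := by
    intro P h1 h3 h4 i j
    apply hbad P h1 h3 (hSS P h4)
    simp only [List.mem_append, List.mem_flatMap, List.mem_finRange, true_and]
    left
    exact ⟨i, j, by simp⟩
  have hbadG : ∀ P : F[X], P.Monic → Irreducible P → P ∉ S → GI (IP P) (gr0 a b c h) := by
    intro P h1 h3 h4
    refine ⟨hbad0 P h1 h3 h4, hdet0, ?_, ?_⟩
    · apply hbad P h1 h3 (hSS P h4)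
      simp
    · apply hbad P h1 h3 (hSS P h4)
      simp
  -- scaling by `d`
  have hsc : ∀ g : Matrix (Fin 3) (Fin 3) (RatFunc F),
      gᵀ * B0 * g = rf d • (gᵀ * gr1 a b c h * g) := by
    intro g
    rw [hB0, Matrix.mul_smul, Matrix.smul_mul]
  have hdP : ∀ P : F[X], Irreducible P → rf d ∈ IP P := fun P hP => ((hPOL F).2.2.1 P d hP).1
  -- local lattices
  have hloc : ∀ P : F[X], ∃ g : Matrix (Fin 3) (Fin 3) (RatFunc F),
      ∀ hp : P.Monic ∧ Irreducible P,
      (g.det ≠ 0 ∧ GI (IP P) (gᵀ * gr0 a b c h * g) ∧ MI (IP P) (gᵀ * B0 * g) ∧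
      (P ∈ T → (y P = (0, 0) → (gᵀ * gr0 a b c h * g) 0 0 / rf P ∈ IP P ∧
          (gᵀ * B0 * g) 0 0 / rf P ∈ IP P) ∧
        (y P = (0, 1) → ∀ z : Fin 3 → RatFunc F, (∀ i, z i ∈ IP P) →
          bil (gᵀ * gr0 a b c h * g) z z / rf P ∈ IP P →
          bil (gᵀ * B0 * g) z z / rf P ∈ IP P → ∀ i, z i / rf P ∈ IP P) ∧
        (y P = (1, 0) → BShK P (gᵀ * gr0 a b c h * g) (gᵀ * B0 * g)))) := by
    intro P
    by_cases hp : P.Monic ∧ Irreducible P
    · by_cases hPT : P ∈ T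
      · have hPy := hTy P hPT
        have hcases : y P = (0, 0) ∨ y P = (0, 1) ∨ y P = (1, 0) := by
          have h1 := hy P hPT
          generalize y P = x at h1 ⊢
          revert x
          decide
        rcases hcases with hc0 | hc0 | hc0
        · have hTR : TR P f h := by
            rw [hc0] at hPy
            exact hTYP F h2 P f hp.1 hp.2 h hsq' hPy
          obtain ⟨g, hg1, hg2, hg3, hg4, hg5⟩ := hTRE F P f h hp.2 hTR
          refine ⟨g, fun _ => ⟨hg1, hg2, ?_, fun _ => ⟨fun _ => ⟨hg4, ?_⟩, ?_, ?_⟩⟩⟩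
          · intro i j
            rw [hsc]
            exact (subP hPOL P hp.2).mul_mem (hdP P hp.2) (hg3 i j)
          · rw [hsc, Matrix.smul_apply, smul_eq_mul, mul_div_assoc]
            exact (subP hPOL P hp.2).mul_mem (hdP P hp.2) hg5
          · intro h1
            rw [hc0] at h1
            exact absurd h1 (by decide)
          · intro h1
            rw [hc0] at h1
            exact absurd h1 (by decide)
        · have hPd : ¬ P ∣ d := by
            rw [hdiv P hp.1 hp.2, hOm]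
            rintro ⟨-, h1⟩
            rw [hc0] at h1
            exact absurd h1 (by decide)
          rw [hc0] at hPy
          obtain ⟨g, hg1, hg2, hg3, hg4⟩ := hLMI F h2 P f hp.1 hp.2 h hsq' hPy
          refine ⟨g, fun _ => ⟨hg1, hg2, ?_, fun _ => ⟨?_, fun _ => ?_, ?_⟩⟩⟩
          · intro i j
            rw [hsc]
            exact (subP hPOL P hp.2).mul_mem (hdP P hp.2) (hg3 i j)
          · intro h1
            rw [hc0] at h1
            exact absurd h1 (by decide)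
          · intro z hz hz0 hz1
            refine hg4 z hz hz0 ?_
            -- divide by `d`
            have hb1 : bil (gᵀ * B0 * g) z z = rf d * bil (gᵀ * gr1 a b c h * g) z z := by
              rw [hsc]
              simp only [bil, Matrix.smul_mulVec, dotProduct_smul, smul_eq_mul]
            have hPne : (rf P : RatFunc F) ≠ 0 := rfP_ne P hp.2
            set x := bil (gᵀ * gr1 a b c h * g) z z with hx
            have hxm : x ∈ IP P := by
              rw [hx, bil, dotProduct]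
              refine (subP hPOL P hp.2).sum_mem fun i _ => (subP hPOL P hp.2).mul_mem (hz i) ?_
              rw [Matrix.mulVec, dotProduct]
              exact (subP hPOL P hp.2).sum_mem fun j _ =>
                (subP hPOL P hp.2).mul_mem (hg3 i j) (hz j)
            obtain ⟨u, v, huv⟩ := (hp.2.coprime_iff_not_dvd.2 hPd).symm
            have huv' : (rf u : RatFunc F) * rf d + rf v * rf P = 1 := by
              have := congrArg (algebraMap F[X] (RatFunc F)) huv
              rw [map_add, map_mul, map_mul, map_one] at this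
              exact this
            have hxe : x / rf P = rf u * (rf d * x / rf P) + rf v * x := by
              field_simp
              linear_combination (-x) * huv'
            rw [hb1] at hz1
            rw [hxe]
            exact (subP hPOL P hp.2).add_mem
              ((subP hPOL P hp.2).mul_mem ((hPOL F).2.2.1 P u hp.2).1 hz1)
              ((subP hPOL P hp.2).mul_mem ((hPOL F).2.2.1 P v hp.2).1 hxm)
          · intro h1
            rw [hc0] at h1
            exact absurd h1 (by decide)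
        · have hPd : P ∣ d := by
            rw [hdiv P hp.1 hp.2, hOm]
            refine ⟨hPT, ?_⟩
            rw [hc0]
          rw [hc0] at hPy
          obtain ⟨g, hg1, hg2, hg3, hg4⟩ := hLBB F h2 P f hp.1 hp.2 h hcop hsq' hPy d hPd
            (hdsq P hp.2)
          refine ⟨g, fun _ => ⟨hg1, hg2, ?_, fun _ => ⟨?_, ?_, fun _ => ?_⟩⟩⟩
          · rw [hsc]
            exact hg3
          · intro h1
            rw [hc0] at h1
            exact absurd h1 (by decide)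
          · intro h1
            rw [hc0] at h1
            exact absurd h1 (by decide)
          · rw [hsc]
            exact hg4
      · obtain ⟨g, hg1, hg2, hg3⟩ := hUSE F P f h hp.2 (hUS P hp.1 hp.2 hPT)
        refine ⟨g, fun _ => ⟨hg1, hg2, ?_, fun h => absurd h hPT⟩⟩
        intro i j
        rw [hsc]
        exact (subP hPOL P hp.2).mul_mem (hdP P hp.2) (hg3 i j)
    · exact ⟨1, fun h => absurd h hp⟩
  choose gP hgP using hloc
  -- the lattice at infinity
  have hsqd : IsSquare (Algebra.norm (RatFunc F)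
      (AdjoinRoot.mk (cubK (tw d f)) (scd d h))) := by
    rw [hSn]
    exact hsq'
  obtain ⟨gi0, hgi1, hgi2, hgi3⟩ := hINF F h2 (n + d.natDegree / 2) (tw d f) htwI.1 htwN
    (scd d h) (hSc.2 hcop) hsqd
  obtain ⟨hRepd, hdetd, -⟩ := hNGH (RatFunc F) (kf (tw d f)).1 (kf (tw d f)).2.1
    (kf (tw d f)).2.2 (scd d h)
  have hRep' : RepH a b c h (g0 (tw d f) (scd d h)) ((rf d)⁻¹ • g1 (tw d f) (scd d h)) := by
    rw [← hSR, smul_smul, mul_inv_cancel₀ hrd0, one_smul]
    exact hRepd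
  obtain ⟨γ, hγ0, hγ1⟩ := hBSH (RatFunc F) a b c h _ _ _ _ hRep' hRep hdet0
  have hγ1' : g1 (tw d f) (scd d h) = γᵀ * B0 * γ := by
    rw [hsc, ← hγ1, smul_smul, mul_inv_cancel₀ hrd0, one_smul]
  have hγd : γ.det ≠ 0 := by
    intro h0
    have h1 : (g0 (tw d f) (scd d h)).det = 0 := by
      rw [hγ0, Matrix.det_mul, h0, mul_zero]
    have h3 : (g0 (tw d f) (scd d h)).det = -ε ^ 2 := by
      have h4 : cub (kf (tw d f)).1 (kf (tw d f)).2.1 (kf (tw d f)).2.2 = cubK (tw d f) := rfl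
      rw [g0, hdetd, h4, hSn, hε, sq]
    rw [h3] at h1
    exact neg_ne_zero.2 (pow_ne_zero _ hε0) h1
  set gi := γ * gi0 with hgi
  have hgid : gi.det ≠ 0 := by
    rw [hgi, Matrix.det_mul]
    exact mul_ne_zero hγd hgi1
  have hgi0e : giᵀ * gr0 a b c h * gi = gi0ᵀ * g0 (tw d f) (scd d h) * gi0 := by
    rw [hγ0, hgi, Matrix.transpose_mul]
    simp only [Matrix.mul_assoc]
  have hgi1e : giᵀ * B0 * gi = gi0ᵀ * g1 (tw d f) (scd d h) * gi0 := by
    rw [hγ1', hgi, Matrix.transpose_mul]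
    simp only [Matrix.mul_assoc]
  obtain ⟨m, g, hgA, hgS, hgN, κ, hκ, hgκ⟩ := hGLB F h2 (gr0 a b c h) ε S gP gi hGs hε0 hdetε hS
    (fun P hP => ⟨(hgP P (hS P hP)).1, (hgP P (hS P hP)).2.1⟩) hbadG hgid (by
      rw [hgi0e]
      exact hgi2)
  -- integrality at all finite primes
  have hint : ∀ P : F[X], P.Monic → Irreducible P → MI (IP P) (gᵀ * B0 * g) := by
    intro P h1 h3
    by_cases hPS : P ∈ S
    · obtain ⟨κP, hκP, hgP'⟩ := hgS P hPS
      have e : gᵀ * B0 * g = κPᵀ * ((gP P)ᵀ * B0 * gP P) * κP := by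
        rw [hgP', Matrix.transpose_mul]
        simp only [Matrix.mul_assoc]
      rw [e]
      exact MI_mul (subP hPOL P h3) (MI_mul (subP hPOL P h3) (MI_tr _ hκP.1)
        (hgP P ⟨h1, h3⟩).2.2.1) hκP.1
    · exact MI_mul (subP hPOL P h3) (MI_mul (subP hPOL P h3) (MI_tr _ (hgN P h1 h3 hPS).1)
        (hbad1 P h1 h3 hPS)) (hgN P h1 h3 hPS).1
  have hpoly : ∀ i j, ∃ p : F[X], (gᵀ * B0 * g) i j = algebraMap F[X] (RatFunc F) p :=
    fun i j => (hPOL F).1 _ fun P h1 h3 => hint P h1 h3 i j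
  choose B hB using hpoly
  have hBm : (Matrix.of B).map (algebraMap F[X] (RatFunc F)) = gᵀ * B0 * g := by
    ext i j
    rw [Matrix.map_apply, Matrix.of_apply, hB]
  have hBsym : (Matrix.of B)ᵀ = Matrix.of B := by
    ext1 i j
    apply RatFunc.algebraMap_injective F
    rw [Matrix.transpose_apply, Matrix.of_apply, Matrix.of_apply, ← hB, ← hB]
    have e : (gᵀ * B0 * g)ᵀ = gᵀ * B0 * g := by
      rw [Matrix.transpose_mul, Matrix.transpose_mul, Matrix.transpose_transpose, hBs,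
        Matrix.mul_assoc]
    calc (gᵀ * B0 * g) j i = ((gᵀ * B0 * g)ᵀ) i j := rfl
      _ = (gᵀ * B0 * g) i j := by rw [e]
  refine ⟨m, Matrix.of B, ?_, ?_, ?_⟩
  · rw [(hPOL F).2.2.2 (n + d.natDegree / 2) m _ hBsym, hBm]
    have e : (Dm m)⁻¹ * (gᵀ * B0 * g) * (Dm m)⁻¹ = κᵀ * (giᵀ * B0 * gi) * κ := by
      rw [hgκ, Matrix.transpose_mul, Matrix.transpose_mul, Dm_tr]
      calc (Dm m)⁻¹ * (Dm m * (κᵀ * giᵀ) * B0 * (gi * κ * Dm m)) * (Dm m)⁻¹
          = ((Dm m)⁻¹ * Dm m) * (κᵀ * giᵀ * B0 * (gi * κ)) * (Dm m * (Dm m)⁻¹) := by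
            simp only [Matrix.mul_assoc]
        _ = κᵀ * giᵀ * B0 * (gi * κ) := by
            rw [Matrix.nonsing_inv_mul _ (det_Dm m), Matrix.mul_nonsing_inv _ (det_Dm m),
              Matrix.one_mul, Matrix.mul_one]
        _ = κᵀ * (giᵀ * B0 * gi) * κ := by
            simp only [Matrix.mul_assoc]
    have e2 : ((RatFunc.X : RatFunc F) ^ (-(2 * (n + d.natDegree / 2 : ℕ) : ℤ))) •
        (κᵀ * (giᵀ * B0 * gi) * κ) =
        κᵀ * (((RatFunc.X : RatFunc F) ^ (2 * (n + d.natDegree / 2)))⁻¹ •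
          (giᵀ * B0 * gi)) * κ := by
      have e3 : (RatFunc.X : RatFunc F) ^ (-(2 * (n + d.natDegree / 2 : ℕ) : ℤ)) =
          ((RatFunc.X : RatFunc F) ^ (2 * (n + d.natDegree / 2)))⁻¹ := by
        rw [_root_.zpow_neg, show (2 * (n + d.natDegree / 2 : ℕ) : ℤ) =
          ((2 * (n + d.natDegree / 2) : ℕ) : ℤ) by push_cast; ring, zpow_natCast]
      rw [e3]
      generalize giᵀ * B0 * gi = Z
      rw [Matrix.mul_smul, Matrix.smul_mul]
    rw [e, e2, hgi1e]
    exact MI_inf_mul (MI_inf_mul (MI_tr _ hκ.1) hgi3) hκ.1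
  · rw [hBm, hsc]
    have h1 := hCHH (RatFunc F) a b c h _ _ g hRep
    rw [hgA] at h1
    exact (hSR _ _).2 h1
  · intro P hPT
    obtain ⟨hPm, hPi⟩ := hTmi P hPT
    have hPS : P ∈ S := by
      rw [hSdef]
      exact Finset.mem_union_left _ hPT
    obtain ⟨κP, hκP, hgP'⟩ := hgS P hPS
    obtain ⟨-, hg2, hg3, hg4⟩ := hgP P ⟨hPm, hPi⟩
    obtain ⟨hg5, hg6, hg7⟩ := hg4 hPT
    obtain ⟨κ', κi, Gs, Bs, hm1, hm2, hGe, hBe, hAA, hBB⟩ := setup hPOL P hPi g κP (gP P)
      (gr0 a b c h) B0 (Matrix.of B) hκP hgP' hgA hBm hg2.1 hg3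
    have hbilG : ∀ z : Fin 3 → subP hPOL P hPi, ((bil Gs z z : subP hPOL P hPi) : RatFunc F) =
        bil ((gP P)ᵀ * gr0 a b c h * gP P) (fun i => (z i : RatFunc F))
          (fun i => (z i : RatFunc F)) := by
      intro z
      rw [← hGe]
      exact bil_map (subP hPOL P hPi).subtype Gs z z
    have hbilB : ∀ z : Fin 3 → subP hPOL P hPi, ((bil Bs z z : subP hPOL P hPi) : RatFunc F) =
        bil ((gP P)ᵀ * B0 * gP P) (fun i => (z i : RatFunc F))
          (fun i => (z i : RatFunc F)) := by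
      intro z
      rw [← hBe]
      exact bil_map (subP hPOL P hPi).subtype Bs z z
    refine ⟨fun hy0 => ?_, fun hy0 => ?_, fun hy0 => ?_⟩
    · obtain ⟨h00, h01⟩ := hg5 hy0
      refine trp hPOL P hPi hm1 hAA hBB ?_ ?_
      · rw [prj_zero, pow_one]
        have : ((Gs 0 0 : subP hPOL P hPi) : RatFunc F) =
            ((gP P)ᵀ * gr0 a b c h * gP P) 0 0 := by
          rw [← hGe]
          rfl
        rw [this]
        exact h00
      · rw [prj_zero, pow_one]
        have : ((Bs 0 0 : subP hPOL P hPi) : RatFunc F) = ((gP P)ᵀ * B0 * gP P) 0 0 := by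
          rw [← hBe]
          rfl
        rw [this]
        exact h01
    · refine ntr hPOL P hPi hm2 hAA hBB ?_
      intro z hz0 hz1 i
      rw [prj_zero, pow_one] at hz0 hz1 ⊢
      rw [hbilG] at hz0
      rw [hbilB] at hz1
      exact hg6 hy0 (fun i => (z i : RatFunc F)) (fun i => (z i).2) hz0 hz1 i
    · obtain ⟨z, μ, w, hz, ⟨i₀, hi₀⟩, hμ, hw, hwn, hK1, hK2, hK3⟩ := hg7 hy0
      set zs : Fin 3 → subP hPOL P hPi := fun i => ⟨z i, hz i⟩ with hzs
      have hvG : ∀ i, (((Gs *ᵥ zs) i : subP hPOL P hPi) : RatFunc F) =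
          (((gP P)ᵀ * gr0 a b c h * gP P) *ᵥ z) i := by
        intro i
        rw [← hGe]
        exact mulVec_coe (subP hPOL P hPi).subtype Gs zs i
      have hvB : ∀ i, (((Bs *ᵥ zs) i : subP hPOL P hPi) : RatFunc F) =
          (((gP P)ᵀ * B0 * gP P) *ᵥ z) i := by
        intro i
        rw [← hBe]
        exact mulVec_coe (subP hPOL P hPi).subtype Bs zs i
      refine bsh hPOL P hPi hm1 hAA hBB zs ⟨μ, hμ⟩ ⟨w, hw⟩ ⟨i₀, ?_⟩ ?_ ?_ ?_ ?_
      · rw [Ne, prj_zero, pow_one]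
        exact hi₀
      · rw [Ne, prj_zero, pow_one]
        exact hwn
      · rw [prj_zero, hbilG]
        exact hK1
      · intro i
        rw [prj_zero]
        have : (((Bs *ᵥ zs) i - pol hPOL P hPi P * ⟨μ, hμ⟩ * (Gs *ᵥ zs) i :
            subP hPOL P hPi) : RatFunc F) = (((gP P)ᵀ * B0 * gP P) *ᵥ z) i -
            rf P * μ * (((gP P)ᵀ * gr0 a b c h * gP P) *ᵥ z) i := by
          rw [← hvB, ← hvG]
          rfl
        rw [this]
        exact hK2 i
      · intro i j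
        rw [prj_zero, pow_one]
        have : ((Bs i j - (⟨w, hw⟩ : subP hPOL P hPi) ^ 2 * ((Gs *ᵥ zs) i * (Gs *ᵥ zs) j) :
            subP hPOL P hPi) : RatFunc F) = ((gP P)ᵀ * B0 * gP P) i j -
            w ^ 2 * ((((gP P)ᵀ * gr0 a b c h * gP P) *ᵥ z) i *
              (((gP P)ᵀ * gr0 a b c h * gP P) *ᵥ z) j) := by
          rw [← hvG, ← hvG, ← hBe]
          rfl
        rw [this]
        exact hK3 i j

end Pool.PRL
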